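import Pool.Agent.Helper58.MinimalMetric.Proof

open Set Pool.Agent.Helper58.MinimalMetric

namespace Pool.Agent.Results.MP_29b22c_an.DiscontinuousMetric

/-- **Theorem.** For every `n ≥ 3` there is a bounded domain `Ω ⊂ ℝⁿ` whose minimal pseudometric
is not continuous on `Ω × ℝⁿ`. -/
theorem result (n : ℕ) (hn : 3 ≤ n) :
    ∃ Ω : Set (EuclideanSpace ℝ (Fin n)), IsOpen Ω ∧ IsConnected Ω ∧ Bornology.IsBounded Ω ∧
      ¬ ContinuousOn (fun p : EuclideanSpace ℝ (Fin n) × EuclideanSpace ℝ (Fin n) =>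
        minimalMetric Ω p.1 p.2) (Ω ×ˢ univ) :=
  main n hn

end Pool.Agent.Results.MP_29b22c_an.DiscontinuousMetric
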